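import Mathlib
import Pool.Agent.H370R3.SphereTools
import Pool.Agent.H370R3.Psi
import Pool.Agent.H370R3.Detect
import Pool.Agent.H370R3.Net

/-!
The difference of the coindices of the two box complexes of a graph is unbounded.
-/

namespace Pool.Agent.Results.MP_732a28_gt.CoindexGap

/-- `CN(A)`: the set of common neighbours of the vertices in `A`. -/
def CN {V : Type} (G : SimpleGraph V) (A : Set V) : Set V := {v | ∀ a ∈ A, G.Adj a v}

/-- `A ⊎ B` is a simplex of `B₀(G)`: `A` and `B` are disjoint and completely joined. -/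
def Simplex₀ {V : Type} (G : SimpleGraph V) (A B : Set V) : Prop :=
  Disjoint A B ∧ ∀ a ∈ A, ∀ b ∈ B, G.Adj a b

/-- `A ⊎ B` is a simplex of `B(G)`: moreover both `A` and `B` have a common neighbour. -/
def Simplex {V : Type} (G : SimpleGraph V) (A B : Set V) : Prop :=
  Simplex₀ G A B ∧ (CN G A).Nonempty ∧ (CN G B).Nonempty

/-- Geometric realization, in barycentric coordinates, of the simplicial complex on the signed
vertices `V × Bool` (`(v, true)` is `+v`, `(v, false)` is `-v`) whose simplices are the sets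
`A ⊎ B` with `S A B`. -/
def Realization {V : Type} [Fintype V] (S : Set V → Set V → Prop) : Type :=
  {x : V × Bool → ℝ // (∀ w, 0 ≤ x w) ∧ ∑ w, x w = 1 ∧
    S {v | x (v, true) ≠ 0} {v | x (v, false) ≠ 0}}

/-- The topology of the realization is the subspace topology of the finite-dimensional space of
coordinates. -/
instance {V : Type} [Fintype V] (S : Set V → Set V → Prop) : TopologicalSpace (Realization S) :=
  instTopologicalSpaceSubtype

/-- The box complex `B₀(G)`. -/
abbrev Box₀ {V : Type} [Fintype V] (G : SimpleGraph V) : Type := Realization (Simplex₀ G)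

/-- The box complex `B(G)`. -/
abbrev Box {V : Type} [Fintype V] (G : SimpleGraph V) : Type := Realization (Simplex G)

/-- The involution exchanging `+v` and `-v`, on the realization of a complex invariant under it. -/
def swap {V : Type} [Fintype V] {S : Set V → Set V → Prop} (hS : ∀ A B, S A B → S B A)
    (x : Realization S) : Realization S :=
  ⟨fun w => x.1 (w.1, !w.2), fun _ => x.2.1 _,
    (Fintype.sum_equiv (Equiv.prodCongr (Equiv.refl V) Equiv.boolNot) _ _ (fun _ => rfl)).trans
      x.2.2.1,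
    hS _ _ x.2.2.2⟩

theorem simplex₀_symm {V : Type} (G : SimpleGraph V) (A B : Set V) (h : Simplex₀ G A B) :
    Simplex₀ G B A :=
  ⟨h.1.symm, fun b hb a ha => (h.2 a ha b hb).symm⟩

theorem simplex_symm {V : Type} (G : SimpleGraph V) (A B : Set V) (h : Simplex G A B) :
    Simplex G B A :=
  ⟨simplex₀_symm G A B h.1, h.2.2, h.2.1⟩

/-- There is a continuous equivariant map from the sphere `Sⁿ` with the antipodal involution to
the space `X` with involution `τ`. -/
def HasMap (n : ℕ) (X : Type) [TopologicalSpace X] (τ : X → X) : Prop :=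
  ∃ f : Metric.sphere (0 : EuclideanSpace ℝ (Fin (n + 1))) 1 → X,
    Continuous f ∧ ∀ x, f (-x) = τ (f x)

/-- `c` is the coindex of `X` with involution `τ`: the largest `n` with a continuous equivariant
map `Sⁿ → X`, and `-1` if there is none (which happens only for empty `X`). -/
def IsCoind (X : Type) [TopologicalSpace X] (τ : X → X) (c : ℤ) : Prop :=
  IsGreatest {d : ℤ | d = -1 ∨ ∃ n : ℕ, d = n ∧ HasMap n X τ} c

section general

open Pool.Agent.H370R3.SphereTools

/-- The coindex of a complex on finitely many vertices is bounded. -/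
theorem no_map_card {V : Type} [Fintype V] {S : Set V → Set V → Prop}
    (hS : ∀ A B, S A B → S B A) (hd : ∀ A B, S A B → Disjoint A B) {n : ℕ}
    (hn : Fintype.card V ≤ n) : ¬ HasMap n (Realization S) (swap hS) := by
  rintro ⟨f, hf, hodd⟩
  let e := (Fintype.equivFin V).symm
  have hc : ∀ w, Continuous (fun x => (f x).1 w) := fun w =>
    (continuous_apply w).comp (continuous_subtype_val.comp hf)
  obtain ⟨x, hx⟩ := borsuk_ulam hn (fun x i => (f x).1 (e i, true) - (f x).1 (e i, false))
    (continuous_pi fun i => (hc _).sub (hc _)) (by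
      intro x
      funext i
      rw [hodd]
      simp [swap])
  have heq : ∀ v, (f x).1 (v, true) = (f x).1 (v, false) := by
    intro v
    have := congrFun hx (e.symm v)
    simp only [Equiv.apply_symm_apply, Pi.zero_apply] at this
    linarith
  have hzero : ∀ v, (f x).1 (v, true) = 0 := by
    intro v
    by_contra h
    have h' : (f x).1 (v, false) ≠ 0 := by rw [← heq]; exact h
    exact Set.disjoint_left.mp (hd _ _ (f x).2.2.2)
      (show v ∈ {v | (f x).1 (v, true) ≠ 0} from h) h'
  have hsum := (f x).2.2.1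
  have : ∑ w, (f x).1 w = 0 := by
    refine Finset.sum_eq_zero ?_
    rintro ⟨v, b⟩ -
    cases b
    · rw [← heq]; exact hzero v
    · exact hzero v
  rw [this] at hsum
  exact zero_ne_one hsum

theorem exists_coind {X : Type} [TopologicalSpace X] {τ : X → X} {b : ℕ}
    (hb : ∀ n, b ≤ n → ¬ HasMap n X τ) :
    ∃ c : ℤ, IsCoind X τ c ∧ c ≤ (b : ℤ) - 1 := by
  have hbd : ∀ z : ℤ, (z = -1 ∨ ∃ n : ℕ, z = n ∧ HasMap n X τ) → z ≤ (b : ℤ) - 1 := by
    rintro z (rfl | ⟨n, rfl, hn⟩)
    · have : (0 : ℤ) ≤ b := Int.natCast_nonneg b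
      linarith
    · by_contra hc
      exact hb n (by omega) hn
  obtain ⟨c, hc1, hc2⟩ := Int.exists_greatest_of_bdd
    (P := fun z : ℤ => z = -1 ∨ ∃ n : ℕ, z = n ∧ HasMap n X τ) ⟨_, hbd⟩ ⟨-1, Or.inl rfl⟩
  exact ⟨c, ⟨hc1, fun z hz => hc2 z hz⟩, hbd c hc1⟩

end general

section net

open Pool.Agent.H370R3.SphereTools Pool.Agent.H370R3.Psi Pool.Agent.H370R3.Net

/-- The graph on a finite set of points of `Y_k`: two points are joined if one is very close to
the antipode of the other. -/
def graph {k : ℕ} (S : Finset (Z k)) : SimpleGraph {v // v ∈ S} where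
  Adj v w := v ≠ w ∧ dist v.1 (nu w.1) < 1 / 2000
  symm := ⟨by
    rintro v w ⟨h1, h2⟩
    refine ⟨h1.symm, ?_⟩
    rw [← nu_dist, nu_nu, dist_comm]
    exact h2⟩
  loopless := ⟨fun v h => h.1 rfl⟩

/-- the point of a signed vertex -/
def pt {k : ℕ} {S : Finset (Z k)} (w : {v // v ∈ S} × Bool) : Z k :=
  if w.2 then w.1.1 else nu w.1.1

theorem pt_mem {k : ℕ} {S : Finset (Z k)} (hS : ∀ v ∈ S, v ∈ Ys k) (w : {v // v ∈ S} × Bool) :
    pt w ∈ Ys k := by
  unfold pt
  split_ifs
  · exact hS _ w.1.2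
  · exact nu_mem (hS _ w.1.2)

theorem pt_close {k : ℕ} {S : Finset (Z k)} (x : Box (graph S)) {w w' : {v // v ∈ S} × Bool}
    (hw : x.1 w ≠ 0) (hw' : x.1 w' ≠ 0) : dist (pt w) (pt w') ≤ 1 / 1000 := by
  obtain ⟨⟨-, hadj⟩, ⟨c, hc⟩, ⟨d, hd⟩⟩ := x.2.2.2
  obtain ⟨v, b⟩ := w
  obtain ⟨v', b'⟩ := w'
  have key : ∀ a a' c : {v // v ∈ S}, (graph S).Adj a c → (graph S).Adj a' c →
      dist a.1 a'.1 ≤ 1 / 1000 := by
    intro a a' c h1 h2
    have := dist_triangle_right a.1 a'.1 (nu c.1)
    have h3 := h1.2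
    have h4 := h2.2
    linarith
  cases b <;> cases b' <;> simp only [pt, if_true, Bool.false_eq_true, if_false]
  · rw [nu_dist]
    exact key v v' d (hd v hw) (hd v' hw')
  · have := (hadj v' hw' v hw).2
    rw [dist_comm]
    linarith
  · have := (hadj v hw v' hw').2
    linarith
  · exact key v v' c (hc v hw) (hc v' hw')

/-- the point of `ℂ^{3k}` -/
noncomputable def theta {k : ℕ} {S : Finset (Z k)} (x : {v // v ∈ S} × Bool → ℝ) : Z k :=
  ∑ w, x w • pt w

theorem theta_close {k : ℕ} {S : Finset (Z k)} (hS : ∀ v ∈ S, v ∈ Ys k) (x : Box (graph S)) :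
    ∃ p ∈ Ys k, ‖theta x.1 - p‖ ≤ 1 / 1000 := by
  obtain ⟨w, hw⟩ : ∃ w, x.1 w ≠ 0 := by
    by_contra hc
    push Not at hc
    have := x.2.2.1
    simp [hc] at this
  refine ⟨pt w, pt_mem hS w, ?_⟩
  have h1 : theta x.1 - pt w = ∑ w', x.1 w' • (pt w' - pt w) := by
    simp only [smul_sub, Finset.sum_sub_distrib]
    rw [← Finset.sum_smul, x.2.2.1, one_smul]
    rfl
  rw [h1]
  calc ‖∑ w', x.1 w' • (pt w' - pt w)‖ ≤ ∑ w', ‖x.1 w' • (pt w' - pt w)‖ := norm_sum_le _ _
    _ ≤ ∑ w', x.1 w' * (1 / 1000) := by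
        refine Finset.sum_le_sum fun w' _ => ?_
        rw [norm_smul, Real.norm_eq_abs, abs_of_nonneg (x.2.1 w')]
        by_cases h : x.1 w' = 0
        · rw [h]; simp
        · have := pt_close x h hw
          rw [dist_eq_norm] at this
          exact mul_le_mul_of_nonneg_left this (x.2.1 w')
    _ = 1 / 1000 := by rw [← Finset.sum_mul, x.2.2.1, one_mul]

theorem theta_swap {k : ℕ} {S : Finset (Z k)} (x : {v // v ∈ S} × Bool → ℝ) :
    theta (fun w => x (w.1, !w.2)) = nu (theta x) := by
  unfold theta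
  rw [Fintype.sum_equiv (Equiv.prodCongr (Equiv.refl _) Equiv.boolNot)
    (fun w => x (w.1, !w.2) • pt w) (fun w => x w • pt (w.1, !w.2))
    (fun w => by
      show x (w.1, !w.2) • pt w = x (w.1, !w.2) • pt (w.1, !!w.2)
      rw [Bool.not_not])]
  have h1 : ∀ w : {v // v ∈ S} × Bool, pt (w.1, !w.2) = nu (pt w) := by
    rintro ⟨v, b⟩
    cases b
    · simp [pt, nu_nu]
    · simp [pt]
  simp only [h1]
  funext i
  rw [Finset.sum_apply]
  simp only [nu, Finset.sum_apply]
  refine Prod.ext ?_ (Prod.ext ?_ ?_)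
  · rw [Prod.fst_sum, Prod.fst_sum, ← Finset.sum_neg_distrib]
    refine Finset.sum_congr rfl fun w _ => ?_
    simp [nu]
  · rw [Prod.snd_sum, Prod.snd_sum, Prod.fst_sum, Prod.fst_sum]
    refine Finset.sum_congr rfl fun w _ => ?_
    simp [nu]
  · rw [Prod.snd_sum, Prod.snd_sum, Prod.snd_sum, Prod.snd_sum]
    refine Finset.sum_congr rfl fun w _ => ?_
    simp [nu]

/-- **Upper bound for the coindex of `B(G)`.** -/
theorem no_map_box {k : ℕ} {S : Finset (Z k)} (hS : ∀ v ∈ S, v ∈ Ys k) {n : ℕ} (hn : 2 ≤ n)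
    (hkn : k ≤ n) : ¬ HasMap n (Box (graph S)) (swap (simplex_symm _)) := by
  rintro ⟨f, hf, hodd⟩
  let F : Sph n → Z k := fun x => theta (f x).1
  have hFc : Continuous F := by
    have hc : ∀ w, Continuous (fun x => (f x).1 w) := fun w =>
      (continuous_apply w).comp (continuous_subtype_val.comp hf)
    exact continuous_finsetSum _ fun w _ => (hc w).smul continuous_const
  have hFnu : ∀ x, F (-x) = nu (F x) := by
    intro x
    simp only [F]
    rw [hodd, ← theta_swap]
    rfl
  choose p hpY hpd using fun x => theta_close hS (f x)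
  have hcomp : ∀ x i, ‖(F x i).1 - (p x i).1‖ ≤ 1 / 1000 ∧
      ‖(F x i).2.1 - (p x i).2.1‖ ≤ 1 / 1000 ∧ ‖(F x i).2.2 - (p x i).2.2‖ ≤ 1 / 1000 := by
    intro x i
    have h1 : ‖F x i - p x i‖ ≤ 1 / 1000 := (norm_le_pi_norm (F x - p x) i).trans (hpd x)
    have h2 := norm_prod_le_iff.mp h1
    have h3 := norm_prod_le_iff.mp h2.2
    exact ⟨h2.1, h3.1, h3.2⟩
  have hg : ∀ i : Fin k, ∃ g : Sph n → ℝ, Continuous g ∧ (∀ x, g (-x) = - g x) ∧
      ∀ x, 1 / 2 ≤ ‖(F x i).1‖ → g x ≠ 0 := by
    intro i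
    have hi : Continuous (fun x => F x i) := (continuous_apply i).comp hFc
    refine Pool.Agent.H370R3.Detect.detect hn (fun x => (F x i).1) (fun x => (F x i).2.1)
      (fun x => (F x i).2.2) hi.fst hi.snd.fst hi.snd.snd ?_ ?_ ?_ ?_
    · intro x; simp only [hFnu]; rfl
    · intro x; simp only [hFnu]; rfl
    · intro x; simp only [hFnu]; rfl
    · intro x
      obtain ⟨h1, h2, h3⟩ := hcomp x i
      exact ⟨p x i, (hpY x).1 i, h1, h2, h3⟩
  choose g hgc hgo hgn using hg
  obtain ⟨x, hx⟩ := borsuk_ulam hkn (fun x i => g i x) (continuous_pi hgc)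
    (fun x => funext fun i => hgo i x)
  obtain ⟨-, i, hi⟩ := hpY x
  refine hgn i x ?_ (congrFun hx i)
  have h1 := (hcomp x i).1
  have h2 := norm_sub_norm_le (p x i).1 (F x i).1
  rw [norm_sub_rev] at h2
  linarith

/-- the two weight functions -/
noncomputable def wp (t : ℝ) : ℝ := max 0 (1 - |t - 1| / 2)

noncomputable def w0 (t : ℝ) : ℝ := min 1 (max 0 ((t - 1) / 2))

theorem wp_nonneg (t : ℝ) : 0 ≤ wp t := le_max_left _ _

theorem w0_nonneg (t : ℝ) : 0 ≤ w0 t := le_min zero_le_one (le_max_left _ _)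

theorem wp_cont : Continuous wp := by unfold wp; fun_prop

theorem w0_cont : Continuous w0 := by unfold w0; fun_prop

theorem wp_zero {t : ℝ} (h : t ≤ -1) : wp t = 0 := by
  unfold wp
  apply max_eq_left
  rw [abs_of_nonpos (by linarith)]; linarith

theorem wp_zero' {t : ℝ} (h : 3 ≤ t) : wp t = 0 := by
  unfold wp
  apply max_eq_left
  rw [abs_of_nonneg (by linarith)]; linarith

theorem w0_zero {t : ℝ} (h : t ≤ 1) : w0 t = 0 := by
  unfold w0
  rw [max_eq_left (by linarith)]; norm_num

theorem w0_one {t : ℝ} (h : 3 ≤ t) : w0 t = 1 := by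
  unfold w0
  rw [max_eq_right (by linarith), min_eq_left (by linarith)]

theorem w_sum {t : ℝ} : wp t + wp (-t) + (w0 t + w0 (-t)) = 1 := by
  wlog h : 0 ≤ t with H
  · have := H (t := -t) (by linarith)
    rw [neg_neg] at this
    linarith
  rcases le_total t 1 with h1 | h1
  · rw [w0_zero h1, w0_zero (by linarith)]
    unfold wp
    rw [abs_of_nonpos (by linarith), abs_of_nonpos (by linarith), max_eq_right (by linarith),
      max_eq_right (by linarith)]
    ring
  · rw [wp_zero (by linarith : -t ≤ -1), w0_zero (by linarith : -t ≤ 1)]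
    rcases le_total t 3 with h2 | h2
    · unfold wp w0
      rw [abs_of_nonneg (by linarith), max_eq_right (by linarith), max_eq_right (by linarith),
        min_eq_right (by linarith)]
      ring
    · rw [wp_zero' h2, w0_one h2]; ring

theorem cont_mul {X : Type*} [TopologicalSpace X] {φ h : X → ℝ} (hφ : Continuous φ)
    (hb : ∀ x, |h x| ≤ 1) (hc : ∀ x, φ x ≠ 0 → ContinuousAt h x) :
    Continuous (fun x => φ x * h x) := by
  rw [continuous_iff_continuousAt]
  intro x
  by_cases h0 : φ x = 0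
  · rw [ContinuousAt, h0, zero_mul]
    have h1 : Filter.Tendsto (fun y => ‖φ y‖) (nhds x) (nhds 0) := by
      have := hφ.norm.tendsto x
      rwa [h0, norm_zero] at this
    refine squeeze_zero_norm (fun y => ?_) h1
    rw [norm_mul]
    have := hb y
    rw [← Real.norm_eq_abs] at this
    calc ‖φ y‖ * ‖h y‖ ≤ ‖φ y‖ * 1 := mul_le_mul_of_nonneg_left this (norm_nonneg _)
      _ = ‖φ y‖ := mul_one _
  · exact hφ.continuousAt.mul (hc x h0)

section weights

variable {k : ℕ} (S : Finset (Z k))

noncomputable def rho (v : Z k) (p : Z k) : ℝ := max 0 (1 / 4000 - dist v p)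

noncomputable def rsum (p : Z k) : ℝ := ∑ v : {v // v ∈ S}, rho v.1 p

noncomputable def rh (v : Z k) (p : Z k) : ℝ := rho v p / rsum S p

theorem rho_nonneg (v p : Z k) : 0 ≤ rho v p := le_max_left _ _

theorem rho_cont (v : Z k) : Continuous (rho v) := by unfold rho; fun_prop

theorem rsum_cont : Continuous (rsum S) := continuous_finsetSum _ fun v _ => rho_cont v.1

theorem rsum_nonneg (p : Z k) : 0 ≤ rsum S p := Finset.sum_nonneg fun v _ => rho_nonneg v.1 p

theorem rh_nonneg (v p : Z k) : 0 ≤ rh S v p := div_nonneg (rho_nonneg v p) (rsum_nonneg S p)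

theorem rh_le (v : {v // v ∈ S}) (p : Z k) : rh S v.1 p ≤ 1 := by
  unfold rh
  refine div_le_one_of_le₀ ?_ (rsum_nonneg S p)
  unfold rsum
  exact Finset.single_le_sum (f := fun v : {v // v ∈ S} => rho v.1 p) (s := Finset.univ)
    (fun v _ => rho_nonneg v.1 p) (Finset.mem_univ v)

theorem rho_le_rsum (v : {v // v ∈ S}) (p : Z k) : rho v.1 p ≤ rsum S p := by
  unfold rsum
  exact Finset.single_le_sum (f := fun v : {v // v ∈ S} => rho v.1 p) (s := Finset.univ)
    (fun v _ => rho_nonneg v.1 p) (Finset.mem_univ v)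

theorem rho_pos {v p : Z k} (h : dist v p < 1 / 4000) : 0 < rho v p := by
  unfold rho
  rw [lt_max_iff]
  right
  exact sub_pos.mpr h

theorem rsum_pos {S : Finset (Z k)} (hnet : ∀ p ∈ Ys k, ∃ v ∈ S, dist v p < 1 / 4000) {p : Z k}
    (hp : p ∈ Ys k) : 0 < rsum S p := by
  obtain ⟨v, hv, hd⟩ := hnet p hp
  exact lt_of_lt_of_le (rho_pos hd) (rho_le_rsum S ⟨v, hv⟩ p)

theorem rh_sum {p : Z k} (h : 0 < rsum S p) : ∑ v : {v // v ∈ S}, rh S v.1 p = 1 := by
  unfold rh
  rw [← Finset.sum_div]
  exact div_self h.ne'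

theorem dist_of_rh {v p : Z k} (h : rh S v p ≠ 0) : dist v p < 1 / 4000 := by
  by_contra hc
  apply h
  unfold rh rho
  rw [max_eq_left (by linarith), zero_div]

end weights

/-- **Lower bound for the coindex of `B₀(G)`.** -/
theorem has_map_box₀ {k : ℕ} (hk : 0 < k) {S : Finset (Z k)} (hS : ∀ v ∈ S, v ∈ Ys k)
    (hnet : ∀ p ∈ Ys k, ∃ v ∈ S, dist v p < 1 / 4000) :
    HasMap (2 * k) (Box₀ (graph S)) (swap (simplex₀_symm _)) := by
  classical
  obtain ⟨p0, hp0⟩ := Ys_nonempty hk
  obtain ⟨v0, hv0, -⟩ := hnet p0 hp0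
  let v₀ : {v // v ∈ S} := ⟨v0, hv0⟩
  let E : Sph (2 * k) → ({v // v ∈ S} × Bool → ℝ) := fun X w =>
    if w.2 then wp (t X k) * rh S w.1.1 (pp X) + w0 (t X k) * (if w.1 = v₀ then 1 else 0)
    else wp (-t X k) * rh S w.1.1 (nu (pp X)) + w0 (-t X k) * (if w.1 = v₀ then 1 else 0)
  have hlt : ∀ {X : Sph (2 * k)}, wp (t X k) ≠ 0 ∨ wp (-t X k) ≠ 0 → |t X k| < 3 := by
    intro X h
    by_contra hc
    rcases le_abs.mp (not_lt.mp hc) with h' | h'
    · rcases h with h | h
      · exact h (wp_zero' h')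
      · exact h (wp_zero (by linarith))
    · rcases h with h | h
      · exact h (wp_zero (by linarith))
      · exact h (wp_zero' (by linarith))
  have htc : Continuous (fun X : Sph (2 * k) => t X k) := t_cont hk k
  have hEc : Continuous E := by
    refine continuous_pi ?_
    rintro ⟨v, b⟩
    cases b
    · simp only [E, Bool.false_eq_true, if_false]
      refine Continuous.add ?_ ((w0_cont.comp htc.neg).mul continuous_const)
      refine cont_mul (wp_cont.comp htc.neg) (fun X => ?_) (fun X hX => ?_)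
      · rw [abs_of_nonneg (rh_nonneg S _ _)]; exact rh_le S v _
      · have h3 := hlt (Or.inr hX)
        have h4 := pp_contAt hk h3
        have h5 := nu_mem (pp_mem hk h3)
        have h6 : ContinuousAt (fun X : Sph (2 * k) => nu (pp X)) X :=
          nu_cont.continuousAt.comp h4
        exact ((rho_cont v.1).continuousAt.comp h6).div ((rsum_cont S).continuousAt.comp h6)
          (rsum_pos hnet h5).ne'
    · simp only [E, if_true]
      refine Continuous.add ?_ ((w0_cont.comp htc).mul continuous_const)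
      refine cont_mul (wp_cont.comp htc) (fun X => ?_) (fun X hX => ?_)
      · rw [abs_of_nonneg (rh_nonneg S _ _)]; exact rh_le S v _
      · have h3 := hlt (Or.inl hX)
        have h4 := pp_contAt hk h3
        have h5 := pp_mem hk h3
        exact ((rho_cont v.1).continuousAt.comp h4).div ((rsum_cont S).continuousAt.comp h4)
          (rsum_pos hnet h5).ne'
  have hEnn : ∀ X w, 0 ≤ E X w := by
    intro X w
    simp only [E]
    split_ifs <;>
    · have := wp_nonneg (t X k); have := wp_nonneg (-t X k)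
      have := w0_nonneg (t X k); have := w0_nonneg (-t X k)
      have := rh_nonneg S w.1.1 (pp X); have := rh_nonneg S w.1.1 (nu (pp X))
      positivity
  have hEsum : ∀ X, ∑ w, E X w = 1 := by
    intro X
    rw [Fintype.sum_prod_type]
    simp only [Fintype.sum_bool, E, if_true, Bool.false_eq_true, if_false]
    have h1 : ∀ v : {v // v ∈ S},
        wp (t X k) * rh S v.1 (pp X) + w0 (t X k) * (if v = v₀ then 1 else 0) +
        (wp (-t X k) * rh S v.1 (nu (pp X)) + w0 (-t X k) * (if v = v₀ then 1 else 0)) =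
        wp (t X k) * rh S v.1 (pp X) + wp (-t X k) * rh S v.1 (nu (pp X)) +
        (w0 (t X k) + w0 (-t X k)) * (if v = v₀ then 1 else 0) := by
      intro v; ring
    simp only [h1, Finset.sum_add_distrib, ← Finset.mul_sum, Finset.sum_ite_eq', Finset.mem_univ,
      if_true, mul_one]
    have h2 : wp (t X k) * ∑ v : {v // v ∈ S}, rh S v.1 (pp X) = wp (t X k) := by
      by_cases h : wp (t X k) = 0
      · rw [h, zero_mul]
      · rw [rh_sum S (rsum_pos hnet (pp_mem hk (hlt (Or.inl h)))), mul_one]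
    have h3 : wp (-t X k) * ∑ v : {v // v ∈ S}, rh S v.1 (nu (pp X)) = wp (-t X k) := by
      by_cases h : wp (-t X k) = 0
      · rw [h, zero_mul]
      · rw [rh_sum S (rsum_pos hnet (nu_mem (pp_mem hk (hlt (Or.inr h))))), mul_one]
    rw [h2, h3]
    exact w_sum
  have hEsimp : ∀ X, Simplex₀ (graph S) {v | E X (v, true) ≠ 0} {v | E X (v, false) ≠ 0} := by
    intro X
    rcases le_total 1 (t X k) with h | h
    · have : {v | E X (v, false) ≠ 0} = ∅ := by
        ext v
        simp [E, wp_zero (by linarith : -t X k ≤ -1), w0_zero (by linarith : -t X k ≤ 1)]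
      rw [this]
      exact ⟨Set.disjoint_empty _, fun _ _ _ h => h.elim⟩
    · rcases le_total (t X k) (-1) with h' | h'
      · have : {v | E X (v, true) ≠ 0} = ∅ := by
          ext v
          simp [E, wp_zero h', w0_zero h]
        rw [this]
        exact ⟨Set.empty_disjoint _, fun _ h => h.elim⟩
      · have hadj : ∀ v w : {v // v ∈ S}, E X (v, true) ≠ 0 → E X (w, false) ≠ 0 →
            dist v.1 (nu w.1) < 1 / 2000 ∧ pp X ∈ Ys k := by
          intro v w hv hw
          simp only [E, if_true, w0_zero h, zero_mul, add_zero] at hv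
          simp only [E, Bool.false_eq_true, if_false, w0_zero (by linarith : -t X k ≤ 1), zero_mul,
            add_zero] at hw
          have h1 := dist_of_rh S (right_ne_zero_of_mul hv)
          have h2 := dist_of_rh S (right_ne_zero_of_mul hw)
          rw [← nu_dist, nu_nu] at h2
          refine ⟨?_, pp_mem hk (hlt (Or.inl (left_ne_zero_of_mul hv)))⟩
          have := dist_triangle_right v.1 (nu w.1) (pp X)
          linarith
        have hne : ∀ v : {v // v ∈ S}, ¬ dist v.1 (nu v.1) < 1 / 2000 := by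
          intro v hlt
          obtain ⟨-, i, hi⟩ := hS v.1 v.2
          have h1 : dist (v.1 i) (nu v.1 i) < 1 / 2000 := (dist_le_pi_dist _ _ i).trans_lt hlt
          have h2 : dist (v.1 i).1 (nu v.1 i).1 < 1 / 2000 :=
            lt_of_le_of_lt (le_max_left _ _) h1
          simp only [nu] at h2
          rw [dist_eq_norm, sub_neg_eq_add, ← two_mul, norm_mul, hi] at h2
          norm_num at h2
        refine ⟨?_, ?_⟩
        · rw [Set.disjoint_left]
          intro v hv hw
          exact hne v (hadj v v hv hw).1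
        · intro v hv w hw
          refine ⟨?_, (hadj v w hv hw).1⟩
          rintro rfl
          exact hne v (hadj v v hv hw).1
  refine ⟨fun X => ⟨E X, hEnn X, hEsum X, hEsimp X⟩, Continuous.subtype_mk hEc _, ?_⟩
  intro X
  apply Subtype.ext
  funext w
  obtain ⟨v, b⟩ := w
  cases b
  · simp [E, swap, t_neg, pp_neg, nu_nu]
  · simp [E, swap, t_neg, pp_neg]

end net

/-- **The gap between the coindices of the two box complexes is unbounded.**  For every integer `m`
there is a finite simple graph `G` with `coind (B₀(G)) - coind (B(G)) ≥ m`. -/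
theorem result (m : ℤ) : ∃ (V : Type) (_ : Fintype V) (G : SimpleGraph V) (c c₀ : ℤ),
    IsCoind (Box G) (swap (simplex_symm G)) c ∧ IsCoind (Box₀ G) (swap (simplex₀_symm G)) c₀ ∧
      m ≤ c₀ - c := by
  obtain ⟨j, hj⟩ : ∃ j : ℕ, m ≤ j := ⟨m.toNat, Int.self_le_toNat m⟩
  obtain ⟨S, hS, hnet⟩ := Pool.Agent.H370R3.Net.exists_net (j + 2)
    (by norm_num : (0 : ℝ) < 1 / 4000)
  obtain ⟨c, hc, hcb⟩ := exists_coind (b := j + 2) (X := Box (graph S))
    (τ := swap (simplex_symm (graph S))) (fun n hn => no_map_box hS (by omega) hn)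
  obtain ⟨c₀, hc₀, -⟩ := exists_coind (b := Fintype.card {v // v ∈ S}) (X := Box₀ (graph S))
    (τ := swap (simplex₀_symm (graph S))) (fun n hn => no_map_card _ (fun A B h => h.1) hn)
  refine ⟨{v // v ∈ S}, inferInstance, graph S, c, c₀, hc, hc₀, ?_⟩
  have h1 : ((2 * (j + 2) : ℕ) : ℤ) ≤ c₀ :=
    hc₀.2 (Or.inr ⟨_, rfl, has_map_box₀ (by omega) hS hnet⟩)
  push_cast at h1 hcb
  linarith

end Pool.Agent.Results.MP_732a28_gt.CoindexGap
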